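import Pool.Agent.H143R3.BT.Stmts

set_option autoImplicit false

namespace Pool.Agent.Helper923.BT

open MeasureTheory ProbabilityTheory Filter Topology Pool.Agent.H143R3.BT
open scoped ENNReal NNReal

universe v

theorem tq_le (t : ℝ≥0) (p : ℕ × ℕ) : tq t p ≤ t := by
  unfold tq
  exact mul_le_of_le_one_right (zero_le) (min_le_right _ _)

theorem measurable_sp (t : ℝ≥0) : Measurable (sp t) := by
  unfold sp
  exact Measurable.iSup fun p => measurable_pi_apply _

theorem measurable_neg_path : Measurable fun x : ℝ≥0 → ℝ => fun u => -x u :=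
  measurable_pi_lambda _ fun u => (measurable_pi_apply u).neg

theorem measurable_nrm (t : ℝ≥0) : Measurable (nrm t) := by
  unfold nrm
  exact (measurable_sp t).max ((measurable_sp t).comp measurable_neg_path)

theorem measurable_H {Ω' : Type v} [MeasurableSpace Ω'] (P' : Measure Ω') [IsProbabilityMeasure P']
    (W : ℝ≥0 → Ω' → ℝ) (hW : ∀ t, Measurable (W t)) (t : ℝ≥0) : Measurable (H P' W t) := by
  have key : Measurable fun x : ℝ≥0 → ℝ => ∫ ω, sp t (fun s => sp s x + W s ω) ∂P' := by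
    have h1 : Measurable (Function.uncurry fun (x : ℝ≥0 → ℝ) (ω : Ω') =>
        sp t (fun s => sp s x + W s ω)) := by
      unfold sp
      refine Measurable.iSup fun p => ?_
      refine Measurable.add ?_ ?_
      · exact (measurable_sp (tq t p)).comp measurable_fst
      · exact (hW _).comp measurable_snd
    exact (h1.stronglyMeasurable.integral_prod_right).measurable
  unfold H U
  exact key.add (key.comp measurable_neg_path)

theorem isLUB_sp (t : ℝ≥0) (x : ℝ≥0 → ℝ) (hx : Continuous x) : IsLUB (x '' Set.Iic t) (sp t x) := by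
  have hcomp : IsCompact (Set.Iic t) := by
    have : Set.Iic t = Set.Icc 0 t := by
      ext s; simp
    rw [this]; exact isCompact_Icc
  have hbdd : BddAbove (x '' Set.Iic t) := (hcomp.image hx).bddAbove
  have hbdd' : BddAbove (Set.range fun p : ℕ × ℕ => x (tq t p)) := by
    refine hbdd.mono ?_
    rintro _ ⟨p, rfl⟩
    exact ⟨_, tq_le t p, rfl⟩
  constructor
  · rintro _ ⟨s, hs, rfl⟩
    have hs : s ≤ t := hs
    rcases eq_or_ne t 0 with ht | ht
    · have h0 : s = tq t (0, 0) := by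
        have : s = 0 := le_antisymm (ht ▸ hs) (zero_le)
        simp [tq, ht, this]
      rw [h0]
      exact le_ciSup hbdd' (0, 0)
    · set r : ℝ := (s : ℝ) / t with hr
      have ht' : (0 : ℝ) < t := by positivity
      have hr0 : 0 ≤ r := by positivity
      have hr1 : r ≤ 1 := (div_le_one ht').2 (by exact_mod_cast hs)
      have hlim : Tendsto (fun n : ℕ => tq t (⌊r * ((n : ℝ) + 1)⌋₊, n)) atTop (𝓝 s) := by
        rw [← NNReal.tendsto_coe]
        have h1 : Tendsto (fun n : ℕ => ((⌊r * ((n : ℝ) + 1)⌋₊ : ℕ) : ℝ) / ((n : ℝ) + 1)) atTop (𝓝 r) := by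
          have h2 := tendsto_nat_floor_mul_div_atTop (R := ℝ) hr0
          exact h2.comp (tendsto_atTop_add_const_right _ 1 tendsto_natCast_atTop_atTop)
        have h3 : Tendsto (fun n : ℕ => (t : ℝ) *
            min (((⌊r * ((n : ℝ) + 1)⌋₊ : ℕ) : ℝ) / ((n : ℝ) + 1)) 1) atTop (𝓝 ((t : ℝ) * min r 1)) :=
          (h1.min tendsto_const_nhds).const_mul _
        have h4 : (t : ℝ) * min r 1 = s := by
          rw [min_eq_left hr1, hr]; field_simp
        rw [h4] at h3
        refine h3.congr fun n => ?_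
        simp only [tq]
        push_cast
        rfl
      exact le_of_tendsto' ((hx.tendsto s).comp hlim) fun n => le_ciSup hbdd' _
  · intro b hb
    exact ciSup_le fun p => hb ⟨_, tq_le t p, rfl⟩

/-- dyadic times -/
noncomputable def tau (t : ℝ≥0) (k j : ℕ) : ℝ≥0 := t * ((j : ℝ≥0) / 2 ^ k)

theorem tau_double (t : ℝ≥0) (k j : ℕ) : tau t (k + 1) (2 * j) = tau t k j := by
  unfold tau
  congr 1
  rw [pow_succ]
  push_cast
  field_simp

theorem tau_succ (t : ℝ≥0) (k j : ℕ) : tau t k (j + 1) = t / 2 ^ k + tau t k j := by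
  unfold tau
  push_cast
  rw [add_div, mul_add, add_comm]
  congr 1
  rw [mul_one_div]

theorem chain_bound (t : ℝ≥0) (x : ℝ≥0 → ℝ) (h0 : x 0 = 0) (b : ℕ → ℝ)
    (hb : ∀ k, ∀ j < 2 ^ k, |x (tau t k (j + 1)) - x (tau t k j)| ≤ b k) (hb0 : ∀ k, 0 ≤ b k)
    (r : ℝ) (hr0 : 0 ≤ r) (hr1 : r ≤ 1) (n : ℕ) :
    |x (tau t n ⌊(2 : ℝ) ^ n * r⌋₊)| ≤ ∑ k ∈ Finset.range (n + 1), b k := by
  induction n with
  | zero =>
    simp only [pow_zero, one_mul, zero_add, Finset.range_one, Finset.sum_singleton]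
    rcases eq_or_lt_of_le hr1 with h | h
    · rw [h, Nat.floor_one]
      have := hb 0 0 (by norm_num)
      have h2 : tau t 0 0 = 0 := by simp [tau]
      rw [h2, h0, sub_zero, zero_add] at this
      exact this
    · have : ⌊r⌋₊ = 0 := Nat.floor_eq_zero.2 h
      rw [this]
      have h2 : tau t 0 0 = 0 := by simp [tau]
      rw [h2, h0, abs_zero]
      exact hb0 0
  | succ n ih =>
    rw [Finset.sum_range_succ]
    set m := ⌊(2 : ℝ) ^ n * r⌋₊ with hm
    set m' := ⌊(2 : ℝ) ^ (n + 1) * r⌋₊ with hm'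
    have hpos : 0 ≤ (2 : ℝ) ^ n * r := by positivity
    have hpos' : 0 ≤ (2 : ℝ) ^ (n + 1) * r := by positivity
    have h1 : (m : ℝ) ≤ 2 ^ n * r := Nat.floor_le hpos
    have h2 : (2 : ℝ) ^ n * r < m + 1 := Nat.lt_floor_add_one _
    have h3 : (m' : ℝ) ≤ 2 ^ (n + 1) * r := Nat.floor_le hpos'
    have hlow : 2 * m ≤ m' := by
      apply Nat.le_floor
      push_cast
      rw [pow_succ]; linarith
    have hup : m' < 2 * m + 2 := by
      have : (m' : ℝ) < ((2 * m + 2 : ℕ) : ℝ) := by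
        push_cast
        rw [pow_succ] at h3
        linarith
      exact_mod_cast this
    have hle : m' ≤ 2 ^ (n + 1) := by
      have : (m' : ℝ) ≤ ((2 ^ (n + 1) : ℕ) : ℝ) := by
        push_cast
        refine h3.trans ?_
        have : (0 : ℝ) < 2 ^ (n + 1) := by positivity
        nlinarith
      exact_mod_cast this
    rcases (by omega : m' = 2 * m ∨ m' = 2 * m + 1) with h | h
    · rw [h, tau_double]
      exact ih.trans (le_add_of_nonneg_right (hb0 _))
    · have h4 := hb (n + 1) (2 * m) (by omega)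
      rw [tau_double] at h4
      rw [h]
      calc |x (tau t (n + 1) (2 * m + 1))| =
          |x (tau t n m) + (x (tau t (n + 1) (2 * m + 1)) - x (tau t n m))| := by ring_nf
        _ ≤ |x (tau t n m)| + |x (tau t (n + 1) (2 * m + 1)) - x (tau t n m)| := abs_add_le _ _
        _ ≤ _ := add_le_add ih h4

theorem sup_bound (t : ℝ≥0) (x : ℝ≥0 → ℝ) (hx : Continuous x) (h0 : x 0 = 0) (b : ℕ → ℝ)
    (hb : ∀ k, ∀ j < 2 ^ k, |x (tau t k (j + 1)) - x (tau t k j)| ≤ b k) (hb0 : ∀ k, 0 ≤ b k)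
    (s : ℝ≥0) (hs : s ≤ t) : ENNReal.ofReal |x s| ≤ ∑' k, ENNReal.ofReal (b k) := by
  rcases eq_or_ne t 0 with ht | ht
  · have : s = 0 := le_antisymm (ht ▸ hs) (zero_le)
    rw [this, h0]; simp
  · set r : ℝ := (s : ℝ) / t with hr
    have ht' : (0 : ℝ) < t := by positivity
    have hr0 : 0 ≤ r := by positivity
    have hr1 : r ≤ 1 := (div_le_one ht').2 (by exact_mod_cast hs)
    have hlim : Tendsto (fun n : ℕ => tau t n ⌊(2 : ℝ) ^ n * r⌋₊) atTop (𝓝 s) := by
      rw [← NNReal.tendsto_coe]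
      have h1 : Tendsto (fun n : ℕ => ((⌊r * (2 : ℝ) ^ n⌋₊ : ℕ) : ℝ) / ((2 : ℝ) ^ n)) atTop (𝓝 r) := by
        have h2 := tendsto_nat_floor_mul_div_atTop (R := ℝ) hr0
        exact h2.comp (tendsto_pow_atTop_atTop_of_one_lt (by norm_num))
      have h3 := h1.const_mul (t : ℝ)
      have h4 : (t : ℝ) * r = s := by rw [hr]; field_simp
      rw [h4] at h3
      refine h3.congr fun n => ?_
      simp only [tau]
      rw [mul_comm r]
      push_cast
      rfl
    have hc : Tendsto (fun n : ℕ => ENNReal.ofReal |x (tau t n ⌊(2 : ℝ) ^ n * r⌋₊)|) atTop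
        (𝓝 (ENNReal.ofReal |x s|)) :=
      (ENNReal.continuous_ofReal.tendsto _).comp (((continuous_abs.comp hx).tendsto s).comp hlim)
    refine le_of_tendsto' hc fun n => ?_
    refine (ENNReal.ofReal_le_ofReal (chain_bound t x h0 b hb hb0 r hr0 hr1 n)).trans ?_
    rw [ENNReal.ofReal_sum_of_nonneg fun k _ => hb0 k]
    exact ENNReal.sum_le_tsum _

/-- fourth moment of the standard Gaussian -/
noncomputable def c4 : ℝ≥0∞ := ∫⁻ y : ℝ, ENNReal.ofReal (y ^ 4) ∂(gaussianReal 0 1)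

theorem c4_lt : c4 < ∞ := by
  have h : MemLp (id : ℝ → ℝ) (4 : ℕ) (gaussianReal 0 1) := by
    exact_mod_cast memLp_id_gaussianReal (μ := 0) (v := 1) 4
  have h2 := h.integrable_norm_pow (by norm_num)
  have h3 := h2.lintegral_lt_top
  refine lt_of_le_of_lt (lintegral_mono fun y => ?_) h3
  refine ENNReal.ofReal_le_ofReal (le_of_eq ?_)
  rw [id, Real.norm_eq_abs, Even.pow_abs (by decide)]

theorem fourth (v : ℝ≥0) : ∫⁻ y : ℝ, ENNReal.ofReal (y ^ 4) ∂(gaussianReal 0 v) =
    ENNReal.ofReal ((v : ℝ) ^ 2) * c4 := by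
  have h := gaussianReal_map_const_mul (μ := 0) (v := 1) (√(v : ℝ))
  have h2 : NNReal.mk (√(v : ℝ) ^ 2) (sq_nonneg _) * 1 = v := by
    rw [mul_one]; apply NNReal.eq
    show √(v : ℝ) ^ 2 = v
    exact Real.sq_sqrt v.coe_nonneg
  rw [mul_zero, h2] at h
  rw [← h, lintegral_map (by fun_prop) (by fun_prop), c4, ← lintegral_const_mul _ (by fun_prop)]
  refine lintegral_congr fun y => ?_
  rw [← ENNReal.ofReal_mul (by positivity)]
  congr 1
  have h5 : √(v : ℝ) ^ 4 = (v : ℝ) ^ 2 := by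
    rw [show 4 = 2 * 2 by norm_num, pow_mul, Real.sq_sqrt v.coe_nonneg]
  rw [mul_pow, h5]

/-- the bound of level `k` -/
noncomputable def bb (t : ℝ≥0) (k : ℕ) (x : ℝ≥0 → ℝ) : ℝ :=
  (4 / 5) ^ k + ∑ j ∈ Finset.range (2 ^ k),
    ((5 / 4) ^ k) ^ 3 * (x (tau t k (j + 1)) - x (tau t k j)) ^ 4

theorem young (a a' m : ℝ) (ha : 0 < a) (haa : a * a' = 1) : |m| ≤ a + a' ^ 3 * m ^ 4 := by
  have hm : m ^ 4 = |m| ^ 4 := by rw [Even.pow_abs (by decide)]
  rw [hm]
  have ha' : 0 < a' := by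
    by_contra h
    push Not at h
    nlinarith
  have h0 : 0 ≤ |m| := abs_nonneg m
  generalize |m| = y at *
  rcases le_total y a with h | h
  · have : 0 ≤ a' ^ 3 * y ^ 4 := by positivity
    linarith
  · have h1 : 1 ≤ a' * y := by nlinarith
    have h2 : 1 ≤ (a' * y) ^ 3 := one_le_pow₀ h1
    have h3 : y ≤ (a' * y) ^ 3 * y := by nlinarith
    have h4 : (a' * y) ^ 3 * y = a' ^ 3 * y ^ 4 := by ring
    linarith

theorem bb_nonneg (t : ℝ≥0) (k : ℕ) (x : ℝ≥0 → ℝ) : 0 ≤ bb t k x := by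
  unfold bb
  positivity

theorem le_bb (t : ℝ≥0) (k : ℕ) (x : ℝ≥0 → ℝ) (j : ℕ) (hj : j < 2 ^ k) :
    |x (tau t k (j + 1)) - x (tau t k j)| ≤ bb t k x := by
  have h1 := young ((4 / 5) ^ k) ((5 / 4) ^ k) (x (tau t k (j + 1)) - x (tau t k j)) (by positivity)
    (by rw [← mul_pow]; norm_num)
  refine h1.trans ?_
  unfold bb
  gcongr
  exact Finset.single_le_sum (f := fun j => ((5 / 4 : ℝ) ^ k) ^ 3 *
    (x (tau t k (j + 1)) - x (tau t k j)) ^ 4) (fun i _ => by positivity) (Finset.mem_range.2 hj)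

theorem lintegral_bb {Ω' : Type v} [MeasurableSpace Ω'] (P' : Measure Ω') [IsProbabilityMeasure P']
    (W : ℝ≥0 → Ω' → ℝ) (hW : IsBM P' W) (t : ℝ≥0) (k : ℕ) :
    ∫⁻ ω, ENNReal.ofReal (bb t k fun s => W s ω) ∂P' =
      ENNReal.ofReal ((4 / 5) ^ k) +
        ENNReal.ofReal ((125 / 128) ^ k * (t : ℝ) ^ 2) * c4 := by
  have hmeas : ∀ j, Measurable fun ω => W (tau t k (j + 1)) ω - W (tau t k j) ω := fun j =>
    (hW.meas _).sub (hW.meas _)
  have h1 : ∀ ω, ENNReal.ofReal (bb t k fun s => W s ω) = ENNReal.ofReal ((4 / 5) ^ k) +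
      ∑ j ∈ Finset.range (2 ^ k), ENNReal.ofReal (((5 / 4) ^ k) ^ 3) *
        ENNReal.ofReal ((W (tau t k (j + 1)) ω - W (tau t k j) ω) ^ 4) := by
    intro ω
    unfold bb
    rw [ENNReal.ofReal_add (by positivity) (by positivity),
      ENNReal.ofReal_sum_of_nonneg (fun i _ => by positivity)]
    congr 1
    refine Finset.sum_congr rfl fun j _ => ?_
    rw [ENNReal.ofReal_mul (by positivity)]
  simp only [h1]
  rw [lintegral_add_left measurable_const, lintegral_const, measure_univ, mul_one,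
    lintegral_finsetSum]
  · congr 1
    have h2 : ∀ j ∈ Finset.range (2 ^ k), ∫⁻ ω, ENNReal.ofReal (((5 / 4) ^ k) ^ 3) *
        ENNReal.ofReal ((W (tau t k (j + 1)) ω - W (tau t k j) ω) ^ 4) ∂P' =
        ENNReal.ofReal (((5 / 4) ^ k) ^ 3) *
          (ENNReal.ofReal (((t / 2 ^ k : ℝ≥0) : ℝ) ^ 2) * c4) := by
      intro j _
      rw [lintegral_const_mul _ ((hmeas j).pow_const 4).ennreal_ofReal]
      congr 1
      have hlaw := hW.law (tau t k j) (tau t k (j + 1)) (by rw [tau_succ]; exact le_add_self)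
      have hd : tau t k (j + 1) - tau t k j = t / 2 ^ k := by
        rw [tau_succ]; exact add_tsub_cancel_right _ _
      rw [hd] at hlaw
      rw [← fourth, ← hlaw, lintegral_map (by fun_prop) (hmeas j)]
    rw [Finset.sum_congr rfl h2, Finset.sum_const, Finset.card_range, nsmul_eq_mul, ← mul_assoc,
      ← mul_assoc, ← ENNReal.ofReal_natCast, ← ENNReal.ofReal_mul (by positivity),
      ← ENNReal.ofReal_mul (by positivity)]
    congr 2
    push_cast
    have h5 : (125 / 128 : ℝ) ^ k = (2 ^ k * ((5 / 4) ^ k) ^ 3) / (2 ^ k) ^ 2 := by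
      rw [← pow_mul, mul_comm k 3, pow_mul, ← mul_pow, ← pow_mul, mul_comm k 2, pow_mul, ← div_pow]
      norm_num
    rw [h5]
    field_simp
  · intro j _
    exact ((hmeas j).pow_const 4).ennreal_ofReal.const_mul _

theorem integrable_sp {Ω' : Type v} [MeasurableSpace Ω'] (P' : Measure Ω') [IsProbabilityMeasure P']
    (W : ℝ≥0 → Ω' → ℝ) (hW : IsBM P' W) (t : ℝ≥0) :
    Integrable (fun ω => sp t (fun s => W s ω)) P' := by
  set S : Ω' → ℝ≥0∞ := fun ω => ∑' k, ENNReal.ofReal (bb t k fun s => W s ω) with hS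
  have hbm : ∀ k, Measurable fun ω => ENNReal.ofReal (bb t k fun s => W s ω) := by
    intro k
    refine Measurable.ennreal_ofReal ?_
    unfold bb
    refine measurable_const.add (Finset.measurable_fun_sum _ fun j _ => ?_)
    exact (((hW.meas _).sub (hW.meas _)).pow_const 4).const_mul _
  have hSm : Measurable S := Measurable.tsum hbm
  have hfin : ∫⁻ ω, S ω ∂P' ≠ ∞ := by
    rw [hS, lintegral_tsum fun k => (hbm k).aemeasurable]
    simp only [lintegral_bb P' W hW t]
    rw [ENNReal.tsum_add, ENNReal.tsum_mul_right]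
    refine ENNReal.add_ne_top.2 ⟨?_, ENNReal.mul_ne_top ?_ c4_lt.ne⟩
    · rw [← ENNReal.ofReal_tsum_of_nonneg (fun k => by positivity)
        (summable_geometric_of_lt_one (by norm_num) (by norm_num))]
      exact ENNReal.ofReal_ne_top
    · rw [← ENNReal.ofReal_tsum_of_nonneg (fun k => by positivity)
        ((summable_geometric_of_lt_one (by norm_num) (by norm_num)).mul_right _)]
      exact ENNReal.ofReal_ne_top
  have hint : Integrable (fun ω => (S ω).toReal) P' :=
    integrable_toReal_of_lintegral_ne_top hSm.aemeasurable hfin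
  have hmeas : Measurable fun ω => sp t (fun s => W s ω) :=
    (measurable_sp t).comp (measurable_pi_lambda _ fun s => hW.meas s)
  refine hint.mono' hmeas.aestronglyMeasurable ?_
  filter_upwards [hW.zero, hW.cont, ae_lt_top hSm hfin] with ω h0 hc hlt
  have hb : ∀ s ≤ t, |W s ω| ≤ (S ω).toReal := by
    intro s hs
    have h := sup_bound t (fun s => W s ω) hc h0 (fun k => bb t k fun s => W s ω)
      (fun k j hj => le_bb t k (fun s => W s ω) j hj) (fun k => bb_nonneg t k _) s hs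
    exact (ENNReal.ofReal_le_iff_le_toReal hlt.ne).1 h
  rw [Real.norm_eq_abs, abs_le]
  have hbdd : BddAbove (Set.range fun p : ℕ × ℕ => W (tq t p) ω) := by
    refine ⟨(S ω).toReal, ?_⟩
    rintro _ ⟨p, rfl⟩
    exact (le_abs_self _).trans (hb _ (tq_le t p))
  constructor
  · exact (neg_le_of_abs_le (hb _ (tq_le t (0, 0)))).trans (le_ciSup hbdd (0, 0))
  · exact ciSup_le fun p => (le_abs_self _).trans (hb _ (tq_le t p))

theorem taskM : TaskM.{v} := by
  intro Ω' _ P' _ W hW t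
  exact ⟨measurable_H P' W hW.meas t, measurable_sp t, measurable_nrm t, integrable_sp P' W hW t,
    fun x hx => isLUB_sp t x hx⟩

end Pool.Agent.Helper923.BT
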